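import Pool.Agent.H21.PDP1

namespace Pool.Agent.Results.MP_f73e8c_lc.NPHard

open Pool.Agent.H11.PT Pool.Agent.H21.PDPDefs

theorem result (L : List Bool → Prop) (hL : InNP L) :
    ∃ f : List Bool → List Vx × List (Vx × Vx) × List (Vx × Vx) × List (ℕ × ℕ),
      PolyTime id bits f ∧ ∀ x,
        Valid (f x).1 (f x).2.1 (f x).2.2.1 (f x).2.2.2 ∧ DegLe (f x).2.2.2 12 ∧
          (L x ↔ Sol (f x).2.1 (f x).2.2.1 (f x).2.2.2) := by
  obtain ⟨g, hg, e⟩ := hard_SAT3 L hL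
  exact ⟨fun x => H21.PDP.red (g x), (H21.PDP.red_pt.comp hg).polyTime_raw, fun x =>
    ⟨H21.PDP.valid, H21.PDP.deg, (e x).trans ⟨H21.PDP.complete, H21.PDP.sound⟩⟩⟩

end Pool.Agent.Results.MP_f73e8c_lc.NPHard
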